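import Pool.Agent.Results.MP_f19a21_co.CyclePowers

/-!
Pairwise adjacent tuples: deletion of edges, blow-ups.
-/

set_option autoImplicit false
set_option linter.unusedSectionVars false

namespace Pool.Agent.Y359.CP

open Pool.Agent.Results.MP_f19a21_co.CyclePowers

/-- pairwise adjacent tuples -/
def Kt {V : Type} (G : SimpleGraph V) (k : ℕ) (φ : Fin k → V) : Prop :=
  ∀ i j, i ≠ j → G.Adj (φ i) (φ j)

open Classical in
/-- the number of pairwise adjacent tuples -/
noncomputable def ct {V : Type} [Fintype V] (G : SimpleGraph V) (k : ℕ) : ℕ :=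
  (Finset.univ.filter (fun φ : Fin k → V => Kt G k φ)).card

lemma Kt.inj {V : Type} {G : SimpleGraph V} {k : ℕ} {φ : Fin k → V} (h : Kt G k φ) :
    Function.Injective φ := by
  intro i j hij
  by_contra hne
  have := h i j hne
  rw [hij] at this
  exact G.loopless.irrefl _ this

lemma cliqueFree_iff_Kt {V : Type} {G : SimpleGraph V} {k : ℕ} :
    G.CliqueFree k ↔ ∀ φ : Fin k → V, ¬ Kt G k φ := by
  constructor
  · intro h φ hφ
    have h1 : (SimpleGraph.completeGraph (Fin k)).IsContained G :=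
      ⟨⟨⟨φ, fun {a b} hab => hφ a b hab.ne⟩, hφ.inj⟩⟩
    exact h1.not_cliqueFree h
  · intro h
    by_contra hcon
    obtain ⟨c⟩ := (SimpleGraph.not_cliqueFree_iff_top_isContained k).1 hcon
    exact h c (fun i j hij => c.toHom.map_adj hij)

/-- deletion of one edge for each tuple -/
lemma del_cliques {V : Type} [Fintype V] {k : ℕ} (hk : 2 ≤ k) (G : SimpleGraph V) :
    ∃ T ≤ G, T.CliqueFree k ∧ G.edgeSet.ncard ≤ T.edgeSet.ncard + ct G k := by
  classical
  let i0 : Fin k := ⟨0, by omega⟩
  let i1 : Fin k := ⟨1, by omega⟩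
  have h01 : i0 ≠ i1 := by
    intro h
    have := congrArg Fin.val h
    simp [i0, i1] at this
  let B : Finset (Sym2 V) :=
    (Finset.univ.filter (fun φ : Fin k → V => Kt G k φ)).image (fun φ => s(φ i0, φ i1))
  refine ⟨G.deleteEdges ↑B, G.deleteEdges_le _, ?_, ?_⟩
  · rw [cliqueFree_iff_Kt]
    intro φ hφ
    have h1 := hφ i0 i1 h01
    rw [SimpleGraph.deleteEdges_adj] at h1
    apply h1.2
    rw [Finset.mem_coe, Finset.mem_image]
    refine ⟨φ, Finset.mem_filter.2 ⟨Finset.mem_univ _, fun i j hij => ?_⟩, rfl⟩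
    have h2 := hφ i j hij
    rw [SimpleGraph.deleteEdges_adj] at h2
    exact h2.1
  · have hsub : G.edgeSet ⊆ (G.deleteEdges ↑B).edgeSet ∪ ↑B := by
      intro e he
      rw [SimpleGraph.edgeSet_deleteEdges]
      by_cases hB : e ∈ (B : Set (Sym2 V))
      · exact Or.inr hB
      · exact Or.inl ⟨he, hB⟩
    have h1 := Set.ncard_le_ncard hsub (Set.toFinite _)
    have h2 := Set.ncard_union_le (G.deleteEdges ↑B).edgeSet (B : Set (Sym2 V))
    rw [Set.ncard_coe_finset] at h2
    have h3 : B.card ≤ ct G k := Finset.card_image_le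
    omega

/-- the theorem of Erdos on complete multipartite hypergraphs, for tuples -/
theorem erdos_tuple (h : ℕ) : ∀ (k : ℕ) (κ : ℝ), 0 < κ → κ ≤ 1 → ∃ M0 : ℕ,
    ∀ (V : Type) [Fintype V], M0 ≤ Fintype.card V → ∀ R : (Fin k → V) → Prop,
      κ * (Fintype.card V : ℝ) ^ k ≤ ({φ : Fin k → V | R φ}.ncard : ℝ) →
      ∃ S : Fin k → Finset V, (∀ i, (S i).card = h) ∧ ∀ φ : Fin k → V, (∀ i, φ i ∈ S i) → R φ := by
  intro k
  induction k with
  | zero =>
    intro κ hκ hκ1
    refine ⟨0, fun V _ _ R hR => ⟨fun i => i.elim0, fun i => i.elim0, fun φ _ => ?_⟩⟩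
    have h1 : {φ : Fin 0 → V | R φ}.Nonempty := by
      by_contra hcon
      rw [Set.not_nonempty_iff_eq_empty] at hcon
      rw [hcon, Set.ncard_empty, pow_zero] at hR
      push_cast at hR
      linarith
    obtain ⟨φ', h2⟩ := h1
    have h3 : φ = φ' := Subsingleton.elim _ _
    rw [h3]; exact h2
  | succ k ih =>
    intro κ hκ hκ1
    have hpow : (κ / 4) ^ h ≤ 1 := pow_le_one₀ (by positivity) (by linarith)
    have hpow0 : 0 < (κ / 4) ^ h := by positivity
    obtain ⟨M1, hM1⟩ := ih ((κ / 2) * (κ / 4) ^ h) (by positivity) (by nlinarith)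
    refine ⟨max M1 (⌈4 * (h : ℝ) / κ⌉₊ + 1), ?_⟩
    intro V _ hV R hR
    have hV1 : M1 ≤ Fintype.card V := le_trans (le_max_left _ _) hV
    have hV2 : ⌈4 * (h : ℝ) / κ⌉₊ + 1 ≤ Fintype.card V := le_trans (le_max_right _ _) hV
    have hA : 4 * (h : ℝ) / κ ≤ Fintype.card V := by
      refine (Nat.le_ceil _).trans ?_
      exact_mod_cast (by omega : ⌈4 * (h : ℝ) / κ⌉₊ ≤ Fintype.card V)
    have hV0 : 0 < Fintype.card V := by omega
    have hcount : {φ : Fin (k + 1) → V | R φ}.ncard ≤
        {p : V × (Fin k → V) | R (Fin.cons p.1 p.2)}.ncard := by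
      apply Set.ncard_le_ncard_of_injOn (fun φ => (φ 0, Fin.tail φ))
      · intro φ hφ
        show R (Fin.cons (φ 0) (Fin.tail φ))
        rw [Fin.cons_self_tail]
        exact hφ
      · intro φ _ φ' _ he
        simp only [Prod.mk.injEq] at he
        rw [← Fin.cons_self_tail φ, ← Fin.cons_self_tail φ', he.1, he.2]
    have hd : κ * Fintype.card V * Fintype.card (Fin k → V) ≤
        ({p : V × (Fin k → V) | R (Fin.cons p.1 p.2)}.ncard : ℝ) := by
      rw [Fintype.card_fun, Fintype.card_fin]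
      push_cast
      calc κ * Fintype.card V * (Fintype.card V : ℝ) ^ k
          = κ * (Fintype.card V : ℝ) ^ (k + 1) := by ring
        _ ≤ ({φ : Fin (k + 1) → V | R φ}.ncard : ℝ) := hR
        _ ≤ _ := by exact_mod_cast hcount
    obtain ⟨S0, hS0, hS0d⟩ := dense_common' (fun (a : V) (b : Fin k → V) => R (Fin.cons a b))
      κ hκ hκ1 h hA hV0 hd
    rw [Fintype.card_fun, Fintype.card_fin] at hS0d
    push_cast at hS0d
    obtain ⟨S, hS, hSR⟩ := hM1 V hV1 (fun b => ∀ a ∈ S0, R (Fin.cons a b)) hS0d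
    refine ⟨Fin.cons S0 S, ?_, ?_⟩
    · intro i
      refine Fin.cases ?_ ?_ i
      · simpa using hS0
      · intro j; simpa using hS j
    · intro φ hφ
      rw [← Fin.cons_self_tail φ]
      apply hSR (Fin.tail φ)
      · intro i
        have := hφ i.succ
        simpa [Fin.tail] using this
      · have := hφ 0
        simpa using this

theorem contained_of_many {W : Type} [Fintype W] (H : SimpleGraph W) {k : ℕ}
    (hH : H.Colorable k) (κ : ℝ) (hκ : 0 < κ) (hκ1 : κ ≤ 1) :
    ∃ M0 : ℕ, ∀ (V : Type) [Fintype V] (G : SimpleGraph V),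
      M0 ≤ Fintype.card V →
      κ * (Fintype.card V : ℝ) ^ k ≤ (ct G k : ℝ) → H.IsContained G := by
  classical
  obtain ⟨M0, hM0⟩ := erdos_tuple (Fintype.card W) k κ hκ hκ1
  refine ⟨M0, fun V _ G hV hG => ?_⟩
  have e1 : {φ : Fin k → V | Kt G k φ}.ncard = ct G k := by
    unfold ct
    rw [← Set.ncard_coe_finset]; congr 1; ext p; simp
  obtain ⟨S, hS, hSR⟩ := hM0 V hV (fun φ => Kt G k φ) (by rw [e1]; exact hG)
  obtain ⟨C⟩ := hH
  have hadj : ∀ i j, i ≠ j → ∀ x ∈ S i, ∀ y ∈ S j, G.Adj x y := by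
    intro i j hij x hx y hy
    have hne : ∀ l, (S l).Nonempty := by
      intro l
      rw [← Finset.card_pos, hS l, ← hS i]
      exact Finset.card_pos.2 ⟨x, hx⟩
    choose z hz using hne
    have h1 := hSR (fun l => if l = i then x else if l = j then y else z l) (by
      intro l
      by_cases h1 : l = i
      · subst h1; simpa using hx
      · by_cases h2 : l = j
        · subst h2; simpa [h1] using hy
        · simpa [h1, h2] using hz l) i j hij
    simpa [hij.symm] using h1
  have e : ∀ i, Nonempty (W ≃ S i) := by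
    intro i
    refine ⟨Fintype.equivOfCardEq ?_⟩
    rw [Fintype.card_coe, hS i]
  obtain ⟨e⟩ : Nonempty (∀ i, W ≃ S i) := ⟨fun i => (e i).some⟩
  refine ⟨⟨⟨fun w => (e (C w) w : V), ?_⟩, ?_⟩⟩
  · intro a b hab
    exact hadj _ _ (C.valid hab) _ (e (C a) a).2 _ (e (C b) b).2
  · intro a b hab
    by_cases hc : C a = C b
    · have h1 : (e (C a) a : V) = (e (C b) b : V) := hab
      have h2 : ∀ i j (_ : i = j) (u v : W), ((e i u : V) = (e j v : V)) → u = v := by
        rintro i j rfl u v huv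
        exact (e i).injective (Subtype.ext huv)
      exact h2 _ _ hc a b h1
    · exfalso
      have h1 := hadj _ _ hc _ (e (C a) a).2 _ (e (C b) b).2
      have h2 : (e (C a) a : V) = (e (C b) b : V) := hab
      rw [h2] at h1
      exact G.loopless.irrefl _ h1

/-- ordered adjacent pairs -/
lemma ct_two {V : Type} [Fintype V] (G : SimpleGraph V) : ct G 2 = 2 * G.edgeSet.ncard := by
  classical
  have h1 : G.edgeSet.ncard = G.edgeFinset.card := by
    rw [← Set.ncard_coe_finset, SimpleGraph.coe_edgeFinset]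
  rw [h1, ← SimpleGraph.sum_degrees_eq_twice_card_edges]
  have h2 : ct G 2 = (Finset.univ.filter (fun p : V × V => G.Adj p.1 p.2)).card := by
    unfold ct
    apply Finset.card_bij (fun φ _ => (φ 0, φ 1))
    · intro φ hφ
      rw [Finset.mem_filter] at hφ ⊢
      exact ⟨Finset.mem_univ _, hφ.2 0 1 (by decide)⟩
    · intro φ _ φ' _ h
      simp only [Prod.mk.injEq] at h
      funext i
      fin_cases i
      · exact h.1
      · exact h.2
    · rintro ⟨a, b⟩ hp
      rw [Finset.mem_filter] at hp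
      refine ⟨![a, b], Finset.mem_filter.2 ⟨Finset.mem_univ _, ?_⟩, rfl⟩
      intro i j hij
      fin_cases i <;> fin_cases j
      · exact absurd rfl hij
      · exact hp.2
      · exact hp.2.symm
      · exact absurd rfl hij
  rw [h2, Finset.card_filter, ← Finset.univ_product_univ, Finset.sum_product]
  apply Finset.sum_congr rfl
  intro v _
  rw [← Finset.card_filter, ← SimpleGraph.card_neighborFinset_eq_degree]
  congr 1
  ext w
  simp

end Pool.Agent.Y359.CP
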