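import Pool.Agent.Y359.CP.A

/-!
Random samples with one vertex from each block.
-/

set_option autoImplicit false
set_option linter.unusedSectionVars false

namespace Pool.Agent.Y359.CP

/-- functions with prescribed restriction -/
lemma fiber_count {m k l : ℕ} (ψ : Fin k → Fin m) (hψ : Function.Injective ψ)
    (P : (Fin k → Fin l) → Prop) :
    {σ : Fin m → Fin l | P (σ ∘ ψ)}.ncard * l ^ k = {y : Fin k → Fin l | P y}.ncard * l ^ m := by
  classical
  let e1 : (Fin m → Fin l) ≃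
      ({x // x ∈ Set.range ψ} → Fin l) × ({x // ¬ x ∈ Set.range ψ} → Fin l) :=
    Equiv.piEquivPiSubtypeProd (fun x => x ∈ Set.range ψ) (fun _ => Fin l)
  let e2 : ({x // x ∈ Set.range ψ} → Fin l) ≃ (Fin k → Fin l) :=
    Equiv.arrowCongr (Equiv.ofInjective ψ hψ).symm (Equiv.refl _)
  let e : (Fin m → Fin l) ≃ (Fin k → Fin l) × ({x // ¬ x ∈ Set.range ψ} → Fin l) :=
    e1.trans (Equiv.prodCongr e2 (Equiv.refl _))
  have he : ∀ σ, (e σ).1 = σ ∘ ψ := by
    intro σ
    rfl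
  have h1 : {σ : Fin m → Fin l | P (σ ∘ ψ)} = e.symm '' ({y | P y} ×ˢ Set.univ) := by
    ext σ
    constructor
    · intro hσ
      refine ⟨e σ, ⟨?_, Set.mem_univ _⟩, e.symm_apply_apply σ⟩
      show P (e σ).1
      rw [he]; exact hσ
    · rintro ⟨p, ⟨hp, _⟩, rfl⟩
      show P (e.symm p ∘ ψ)
      rw [← he, e.apply_symm_apply]
      exact hp
  have h2 : l ^ m = l ^ k * Nat.card ({x // ¬ x ∈ Set.range ψ} → Fin l) := by
    have h3 := Nat.card_congr e
    rw [Nat.card_prod, Nat.card_eq_fintype_card, Nat.card_eq_fintype_card, Fintype.card_fun,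
      Fintype.card_fun, Fintype.card_fin, Fintype.card_fin, Fintype.card_fin] at h3
    exact h3
  rw [h1, Set.ncard_image_of_injective _ e.symm.injective, Set.ncard_prod, Set.ncard_univ, h2]
  ring

section

variable {m l : ℕ}

open Classical in
/-- pairwise adjacent tuples in different blocks -/
noncomputable def dt (Q : SimpleGraph (Fin m × Fin l)) (k : ℕ) : ℕ :=
  (Finset.univ.filter (fun p : (Fin k → Fin m) × (Fin k → Fin l) =>
    Function.Injective p.1 ∧ Kt Q k (fun i => (p.1 i, p.2 i)))).card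

/-- the sample -/
def smp (Q : SimpleGraph (Fin m × Fin l)) (σ : Fin m → Fin l) : SimpleGraph (Fin m) :=
  Q.comap (fun i => (i, σ i))

lemma sum_ct (Q : SimpleGraph (Fin m × Fin l)) (k : ℕ) :
    (∑ σ : Fin m → Fin l, ct (smp Q σ) k) * l ^ k = dt Q k * l ^ m := by
  classical
  have h1 : ∑ σ : Fin m → Fin l, ct (smp Q σ) k =
      ∑ ψ : Fin k → Fin m, (Finset.univ.filter (fun σ : Fin m → Fin l => Kt (smp Q σ) k ψ)).card := by
    unfold ct
    exact Finset.sum_card_bipartiteAbove_eq_sum_card_bipartiteBelow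
      (fun (σ : Fin m → Fin l) (ψ : Fin k → Fin m) => Kt (smp Q σ) k ψ)
  have h2 : dt Q k = ∑ ψ : Fin k → Fin m, (Finset.univ.filter (fun x : Fin k → Fin l =>
      Function.Injective ψ ∧ Kt Q k (fun i => (ψ i, x i)))).card := by
    unfold dt
    rw [Finset.card_filter, ← Finset.univ_product_univ, Finset.sum_product]
    apply Finset.sum_congr rfl
    intro ψ _
    rw [Finset.card_filter]
  rw [h1, h2, Finset.sum_mul, Finset.sum_mul]
  apply Finset.sum_congr rfl
  intro ψ _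
  by_cases hψ : Function.Injective ψ
  · have h3 := fiber_count ψ hψ (fun y : Fin k → Fin l => Kt Q k (fun i => (ψ i, y i)))
    have e1 : (Finset.univ.filter (fun σ : Fin m → Fin l => Kt (smp Q σ) k ψ)).card =
        {σ : Fin m → Fin l | Kt Q k (fun i => (ψ i, (σ ∘ ψ) i))}.ncard := by
      rw [← Set.ncard_coe_finset]
      congr 1
      ext σ
      simp [Kt, smp]
    have e2 : (Finset.univ.filter (fun x : Fin k → Fin l =>
        Function.Injective ψ ∧ Kt Q k (fun i => (ψ i, x i)))).card =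
        {y : Fin k → Fin l | Kt Q k (fun i => (ψ i, y i))}.ncard := by
      rw [← Set.ncard_coe_finset]
      congr 1
      ext σ
      simp [hψ]
    rw [e1, e2]
    exact h3
  · have e1 : (Finset.univ.filter (fun σ : Fin m → Fin l => Kt (smp Q σ) k ψ)) = ∅ := by
      rw [Finset.filter_eq_empty_iff]
      intro σ _ hσ
      exact hψ hσ.inj
    have e2 : (Finset.univ.filter (fun x : Fin k → Fin l =>
        Function.Injective ψ ∧ Kt Q k (fun i => (ψ i, x i)))) = ∅ := by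
      rw [Finset.filter_eq_empty_iff]
      intro x _ hx
      exact hψ hx.1
    rw [e1, e2]
    simp

lemma dt_le (Q : SimpleGraph (Fin m × Fin l)) (k : ℕ) : dt Q k ≤ ct Q k := by
  classical
  unfold dt ct
  apply Finset.card_le_card_of_injOn (fun p => fun i => (p.1 i, p.2 i))
  · intro p hp
    rw [Finset.mem_coe, Finset.mem_filter] at hp ⊢
    exact ⟨Finset.mem_univ _, hp.2.2⟩
  · intro p _ p' _ h
    have h1 : ∀ i, (p.1 i, p.2 i) = (p'.1 i, p'.2 i) := fun i => congrFun h i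
    apply Prod.ext
    · funext i; exact congrArg Prod.fst (h1 i)
    · funext i; exact congrArg Prod.snd (h1 i)

lemma ct_two_le (Q : SimpleGraph (Fin m × Fin l)) : ct Q 2 ≤ dt Q 2 + m * l ^ 2 := by
  classical
  have hsub : (Finset.univ.filter (fun φ : Fin 2 → Fin m × Fin l => Kt Q 2 φ)) ⊆
      (Finset.univ.filter (fun φ : Fin 2 → Fin m × Fin l => Kt Q 2 φ ∧ (φ 0).1 ≠ (φ 1).1)) ∪
      (Finset.univ.filter (fun φ : Fin 2 → Fin m × Fin l => (φ 0).1 = (φ 1).1)) := by
    intro φ hφ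
    rw [Finset.mem_filter] at hφ
    rw [Finset.mem_union, Finset.mem_filter, Finset.mem_filter]
    by_cases h : (φ 0).1 = (φ 1).1
    · exact Or.inr ⟨Finset.mem_univ _, h⟩
    · exact Or.inl ⟨Finset.mem_univ _, hφ.2, h⟩
  have h1 : (Finset.univ.filter
      (fun φ : Fin 2 → Fin m × Fin l => Kt Q 2 φ ∧ (φ 0).1 ≠ (φ 1).1)).card ≤ dt Q 2 := by
    unfold dt
    apply Finset.card_le_card_of_injOn (fun φ => (fun i => (φ i).1, fun i => (φ i).2))
    · intro φ hφ
      rw [Finset.mem_coe, Finset.mem_filter] at hφ ⊢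
      refine ⟨Finset.mem_univ _, ?_, hφ.2.1⟩
      intro i j hij
      by_contra hne
      have h2 := hφ.2.2
      fin_cases i <;> fin_cases j
      · exact hne rfl
      · exact h2 hij
      · exact h2 hij.symm
      · exact hne rfl
    · intro φ _ φ' _ h
      simp only [Prod.mk.injEq] at h
      funext i
      apply Prod.ext
      · exact congrFun h.1 i
      · exact congrFun h.2 i
  have h2 : (Finset.univ.filter
      (fun φ : Fin 2 → Fin m × Fin l => (φ 0).1 = (φ 1).1)).card ≤ m * l ^ 2 := by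
    have h3 : (Finset.univ.filter
      (fun φ : Fin 2 → Fin m × Fin l => (φ 0).1 = (φ 1).1)).card ≤
        (Finset.univ : Finset (Fin m × Fin l × Fin l)).card := by
      apply Finset.card_le_card_of_injOn (fun φ => ((φ 0).1, (φ 0).2, (φ 1).2))
      · intro φ _
        simp
      · intro φ hφ φ' hφ' h
        rw [Finset.mem_coe, Finset.mem_filter] at hφ hφ'
        simp only [Prod.mk.injEq] at h
        funext i
        fin_cases i
        · exact Prod.ext h.1 h.2.1
        · apply Prod.ext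
          · show (φ 1).1 = (φ' 1).1
            rw [← hφ.2, ← hφ'.2]
            exact h.1
          · exact h.2.2
    rw [Finset.card_univ, Fintype.card_prod, Fintype.card_prod, Fintype.card_fin,
      Fintype.card_fin] at h3
    calc _ ≤ _ := h3
      _ = m * l ^ 2 := by ring
  have h3 := Finset.card_le_card hsub
  have h4 := Finset.card_union_le
    (Finset.univ.filter (fun φ : Fin 2 → Fin m × Fin l => Kt Q 2 φ ∧ (φ 0).1 ≠ (φ 1).1))
    (Finset.univ.filter (fun φ : Fin 2 → Fin m × Fin l => (φ 0).1 = (φ 1).1))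
  have h5 : ct Q 2 = (Finset.univ.filter (fun φ : Fin 2 → Fin m × Fin l => Kt Q 2 φ)).card := by
    unfold ct
    congr
  omega

/-- the sampling bound -/
theorem sample {k : ℕ} (hk : 2 ≤ k) (hl : 0 < l) (Q : SimpleGraph (Fin m × Fin l)) (P κ : ℝ)
    (hP : ∀ (σ : Fin m → Fin l) (T : SimpleGraph (Fin m)), T ≤ smp Q σ → T.CliqueFree k →
      (T.edgeSet.ncard : ℝ) ≤ P)
    (hκ : (ct Q k : ℝ) ≤ κ * ((m : ℝ) * l) ^ k) :
    (Q.edgeSet.ncard : ℝ) ≤ (l : ℝ) ^ 2 * (P + κ * (m : ℝ) ^ k) + m * (l : ℝ) ^ 2 / 2 := by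
  classical
  have hl0 : (0 : ℝ) < l := by exact_mod_cast hl
  have h1 : ∀ σ : Fin m → Fin l, (ct (smp Q σ) 2 : ℝ) ≤ 2 * P + 2 * ct (smp Q σ) k := by
    intro σ
    obtain ⟨T, hT, hfree, hcard⟩ := del_cliques hk (smp Q σ)
    have h2 := hP σ T hT hfree
    rw [ct_two]
    push_cast
    have h3 : ((smp Q σ).edgeSet.ncard : ℝ) ≤ T.edgeSet.ncard + ct (smp Q σ) k := by
      exact_mod_cast hcard
    linarith
  have h2 : (∑ σ : Fin m → Fin l, (ct (smp Q σ) 2 : ℝ)) ≤
      (l : ℝ) ^ m * (2 * P) + 2 * ∑ σ : Fin m → Fin l, (ct (smp Q σ) k : ℝ) := by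
    calc _ ≤ ∑ σ : Fin m → Fin l, (2 * P + 2 * (ct (smp Q σ) k : ℝ)) :=
          Finset.sum_le_sum (fun σ _ => h1 σ)
      _ = _ := by
          rw [Finset.sum_add_distrib, Finset.sum_const, Finset.card_univ, Fintype.card_fun,
            Fintype.card_fin, Fintype.card_fin, nsmul_eq_mul, ← Finset.mul_sum]
          push_cast
          ring
  have h3 : (∑ σ : Fin m → Fin l, (ct (smp Q σ) 2 : ℝ)) * (l : ℝ) ^ 2 = dt Q 2 * (l : ℝ) ^ m := by
    exact_mod_cast sum_ct Q 2
  have h4 : (∑ σ : Fin m → Fin l, (ct (smp Q σ) k : ℝ)) * (l : ℝ) ^ k = dt Q k * (l : ℝ) ^ m := by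
    exact_mod_cast sum_ct Q k
  set S2 := ∑ σ : Fin m → Fin l, (ct (smp Q σ) 2 : ℝ) with hS2
  set Sk := ∑ σ : Fin m → Fin l, (ct (smp Q σ) k : ℝ) with hSk
  have h5 : (dt Q k : ℝ) ≤ κ * ((m : ℝ) * l) ^ k := by
    refine le_trans ?_ hκ
    exact_mod_cast dt_le Q k
  have hlk : (0 : ℝ) < (l : ℝ) ^ k := by positivity
  have hlm : (0 : ℝ) < (l : ℝ) ^ m := by positivity
  have h6 : Sk ≤ κ * (m : ℝ) ^ k * (l : ℝ) ^ m := by
    have h7 : Sk * (l : ℝ) ^ k ≤ (κ * (m : ℝ) ^ k * (l : ℝ) ^ m) * (l : ℝ) ^ k := by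
      rw [h4]
      calc (dt Q k : ℝ) * (l : ℝ) ^ m ≤ κ * ((m : ℝ) * l) ^ k * (l : ℝ) ^ m :=
            mul_le_mul_of_nonneg_right h5 hlm.le
        _ = _ := by rw [mul_pow]; ring
    exact le_of_mul_le_mul_right h7 hlk
  have h7 : (dt Q 2 : ℝ) ≤ (l : ℝ) ^ 2 * (2 * P + 2 * (κ * (m : ℝ) ^ k)) := by
    have h8 : (dt Q 2 : ℝ) * (l : ℝ) ^ m ≤
        ((l : ℝ) ^ 2 * (2 * P + 2 * (κ * (m : ℝ) ^ k))) * (l : ℝ) ^ m := by
      rw [← h3]
      calc S2 * (l : ℝ) ^ 2 ≤ ((l : ℝ) ^ m * (2 * P) + 2 * Sk) * (l : ℝ) ^ 2 :=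
            mul_le_mul_of_nonneg_right h2 (by positivity)
        _ ≤ ((l : ℝ) ^ m * (2 * P) + 2 * (κ * (m : ℝ) ^ k * (l : ℝ) ^ m)) * (l : ℝ) ^ 2 := by
            apply mul_le_mul_of_nonneg_right _ (by positivity)
            linarith
        _ = _ := by ring
    exact le_of_mul_le_mul_right h8 hlm
  have h8 : (ct Q 2 : ℝ) ≤ dt Q 2 + m * (l : ℝ) ^ 2 := by exact_mod_cast ct_two_le Q
  rw [ct_two] at h8
  push_cast at h8
  linarith

end

end Pool.Agent.Y359.CP
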