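import Pool.Agent.Y359.CP.B

/-!
The constant and the upper bound.
-/

set_option autoImplicit false
set_option linter.unusedSectionVars false

namespace Pool.Agent.Y359.CP

open Pool.Agent.Results.MP_f19a21_co.CyclePowers

/-- graphs on `Fin m` without `K_k` all of whose edges have length at most `s` -/
structure Loc (k m s : ℕ) (T : SimpleGraph (Fin m)) : Prop where
  free : T.CliqueFree k
  len : ∀ i j, T.Adj i j → (j : ℕ) ≤ i + s

/-- the constant -/
noncomputable def C (k : ℕ) : ℝ :=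
  sSup {x : ℝ | ∃ (m s : ℕ) (T : SimpleGraph (Fin m)), 1 ≤ m ∧ Loc k m s T ∧
    x = (T.edgeSet.ncard : ℝ) / (m * (s + 1))}

lemma loc_le {k m s : ℕ} {T : SimpleGraph (Fin m)} (h : Loc k m s T) :
    T.edgeSet.ncard ≤ s * m := by
  apply edges_le
  intro i j hij
  have h1 := h.len i j hij
  have h2 := h.len j i hij.symm
  refine ⟨hij.ne, ?_⟩
  rcases le_total (i : ℕ) j with hle | hle
  · refine ⟨j - i, by omega, Or.inl ?_⟩
    rw [Nat.add_sub_cancel' hle, Nat.mod_eq_of_lt j.2]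
  · refine ⟨i - j, by omega, Or.inr ?_⟩
    rw [Nat.add_sub_cancel' hle, Nat.mod_eq_of_lt i.2]

lemma quot_le_one {k m s : ℕ} {T : SimpleGraph (Fin m)} (hm : 1 ≤ m) (h : Loc k m s T) :
    (T.edgeSet.ncard : ℝ) / (m * (s + 1)) ≤ 1 := by
  have h1 : (T.edgeSet.ncard : ℝ) ≤ s * m := by exact_mod_cast loc_le h
  have h2 : (1 : ℝ) ≤ m := by exact_mod_cast hm
  have h3 : (0 : ℝ) ≤ s := by positivity
  rw [div_le_one (by positivity)]
  nlinarith

lemma bddAbove_C (k : ℕ) : BddAbove {x : ℝ | ∃ (m s : ℕ) (T : SimpleGraph (Fin m)),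
    1 ≤ m ∧ Loc k m s T ∧ x = (T.edgeSet.ncard : ℝ) / (m * (s + 1))} := by
  refine ⟨1, ?_⟩
  rintro x ⟨m, s, T, hm, h, rfl⟩
  exact quot_le_one hm h

lemma le_C {k m s : ℕ} {T : SimpleGraph (Fin m)} (hm : 1 ≤ m) (h : Loc k m s T) :
    (T.edgeSet.ncard : ℝ) ≤ C k * (m * (s + 1)) := by
  have h1 : (T.edgeSet.ncard : ℝ) / (m * (s + 1)) ≤ C k :=
    le_csSup (bddAbove_C k) ⟨m, s, T, hm, h, rfl⟩
  have h2 : (1 : ℝ) ≤ m := by exact_mod_cast hm
  rwa [div_le_iff₀ (by positivity)] at h1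

lemma bot_loc {k : ℕ} (hk : 2 ≤ k) : Loc k 1 0 (⊥ : SimpleGraph (Fin 1)) :=
  ⟨SimpleGraph.cliqueFree_bot hk, fun i j h => absurd h (by simp)⟩

lemma C_nonneg {k : ℕ} (hk : 2 ≤ k) : 0 ≤ C k := by
  apply le_csSup (bddAbove_C k)
  refine ⟨1, 0, ⊥, le_rfl, bot_loc hk, by simp⟩

lemma C_le_one {k : ℕ} (hk : 2 ≤ k) : C k ≤ 1 := by
  unfold C
  apply csSup_le
  · exact ⟨_, 1, 0, ⊥, le_rfl, bot_loc hk, rfl⟩
  · rintro x ⟨m, s, T, hm, h, rfl⟩
    exact quot_le_one hm h

/-- the windows cover almost all edges -/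
theorem cover {n r M : ℕ} (hM : 0 < M) {F : SimpleGraph (Fin n)} (hF : F ≤ cyclePower n r) :
    F.edgeSet.ncard ≤ r * (r * (n / M + 1) + r + M) +
      ∑ w : Fin (n / M), (F.comap (emb (M := M) w)).edgeSet.ncard := by
  classical
  set B : Set (Fin n) := {i : Fin n | M ≤ i.val % M + r ∨ n ≤ i.val + r ∨ (n / M) * M ≤ i.val} with hB
  have hcover : F.edgeSet ⊆ startEdges r B ∪
      ⋃ w : Fin (n / M), (Sym2.map (emb (M := M) w)) '' (F.comap (emb (M := M) w)).edgeSet := by
    intro e he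
    obtain ⟨i, d, hd1, hd2, rfl⟩ := edge_form hF he
    by_cases hi : i ∈ B
    · left
      exact ⟨(i, ⟨d - 1, by omega⟩), by simp [hi], by simp [Nat.sub_add_cancel hd1]⟩
    · rw [hB, Set.mem_ofPred_eq] at hi
      push Not at hi
      obtain ⟨hi1, hi2, hi3⟩ := hi
      have hk : i.val / M < n / M := by
        rw [Nat.div_lt_iff_lt_mul hM]; exact hi3
      have hmod := Nat.mod_lt i.val hM
      have hdm := Nat.div_add_mod i.val M
      let k : Fin (n / M) := ⟨i.val / M, hk⟩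
      let a : Fin M := ⟨i.val % M, hmod⟩
      let b : Fin M := ⟨i.val % M + d, by omega⟩
      have hea : emb k a = i := by
        apply Fin.ext
        show i.val / M * M + i.val % M = i.val
        rw [mul_comm]; exact hdm
      have heb : emb k b = step i d := by
        apply Fin.ext
        show i.val / M * M + (i.val % M + d) = (i.val + d) % n
        have hlt : i.val + d < n := by omega
        rw [Nat.mod_eq_of_lt hlt, mul_comm]
        omega
      rw [← hea] at he ⊢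
      have heb' : emb k b = step (emb k a) d := by rw [heb, hea]
      rw [← heb'] at he ⊢
      rw [SimpleGraph.mem_edgeSet] at he
      right
      rw [Set.mem_iUnion]
      refine ⟨k, s(a, b), ?_, rfl⟩
      rw [SimpleGraph.mem_edgeSet, SimpleGraph.comap_adj]; exact he
  have h1 := Set.ncard_le_ncard hcover (Set.toFinite _)
  have h3 := Set.ncard_union_le (startEdges r B)
      (⋃ w : Fin (n / M), (Sym2.map (emb (M := M) w)) '' (F.comap (emb (M := M) w)).edgeSet)
  have h4 := (startEdges_card r B).trans (Nat.mul_le_mul_left r (bad_card hM))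
  have h5 := Set.ncard_iUnion_le_of_fintype (fun w : Fin (n / M) =>
    (Sym2.map (emb (M := M) w)) '' (F.comap (emb (M := M) w)).edgeSet)
  have h6 : ∑ w : Fin (n / M), ((Sym2.map (emb (M := M) w)) ''
      (F.comap (emb (M := M) w)).edgeSet).ncard ≤
      ∑ w : Fin (n / M), (F.comap (emb (M := M) w)).edgeSet.ncard :=
    Finset.sum_le_sum fun w _ => Set.ncard_image_le (Set.toFinite _)
  omega

/-- edges of a pull back along a bijection -/
lemma edges_comap_le {V V' : Type} [Finite V] [Finite V'] (e : V ≃ V') (G : SimpleGraph V') :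
    G.edgeSet.ncard ≤ (G.comap e).edgeSet.ncard := by
  have h1 : G.edgeSet ⊆ (Sym2.map e) '' (G.comap e).edgeSet := by
    intro x hx
    induction x using Sym2.ind with
    | _ a b =>
      refine ⟨s(e.symm a, e.symm b), ?_, by simp⟩
      rw [SimpleGraph.mem_edgeSet] at hx ⊢
      simpa using hx
  exact (Set.ncard_le_ncard h1 (Set.toFinite _)).trans (Set.ncard_image_le (Set.toFinite _))

/-- the upper bound -/
theorem upper {k : ℕ} (hk : 2 ≤ k) {W : Type} [Fintype W] (H : SimpleGraph W)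
    (hH : H.Colorable k) (ε : ℝ) (hε : 0 < ε) :
    ∃ r0 : ℕ, ∀ r : ℕ, r0 ≤ r → ∃ n0 : ℕ, ∀ n : ℕ, n0 ≤ n → ∀ F : SimpleGraph (Fin n),
      F ≤ cyclePower n r → ¬ H.IsContained F →
        (F.edgeSet.ncard : ℝ) ≤ (C k + ε) * ((r : ℝ) * n) := by
  classical
  set a : ℕ := ⌈16 / ε⌉₊ + 1 with ha
  have ha1 : 1 ≤ a := by omega
  have ha16 : 16 ≤ ε * a := by
    have h1 : 16 / ε ≤ a := by
      refine (Nat.le_ceil _).trans ?_
      rw [ha]; push_cast; linarith
    rw [div_le_iff₀ hε] at h1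
    linarith
  set m : ℕ := a * a with hm
  have hm1 : 1 ≤ m := Nat.mul_pos ha1 ha1
  have hm0 : (1 : ℝ) ≤ m := by exact_mod_cast hm1
  set κ : ℝ := 1 / (m : ℝ) ^ k with hκ
  have hκ0 : 0 < κ := by positivity
  have hκ1 : κ ≤ 1 := by
    rw [hκ, div_le_one (by positivity)]
    exact one_le_pow₀ hm0
  have hκm : κ * (m : ℝ) ^ k = 1 := by
    rw [hκ]; field_simp
  obtain ⟨M0, hM0⟩ := contained_of_many H hH κ hκ0 hκ1
  refine ⟨a * (a + M0), fun r hr => ?_⟩
  set l : ℕ := r / a with hl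
  have hl1 : a + M0 ≤ l := by
    rw [hl, Nat.le_div_iff_mul_le (by omega), mul_comm]; exact hr
  have hl0 : 0 < l := by omega
  have hla : a * l ≤ r := Nat.mul_div_le r a
  have hlr : r < a * l + a := by
    have h1 := Nat.div_add_mod r a
    have h2 := Nat.mod_lt r (show a > 0 by omega)
    rw [← hl] at h1
    omega
  set M : ℕ := m * l with hM
  have hMpos : 0 < M := Nat.mul_pos hm1 hl0
  refine ⟨max (M + r) (⌈8 * (2 * r + M) / ε⌉₊ + 1), fun n hn F hF hcon => ?_⟩
  have hnM : M + r ≤ n := le_trans (le_max_left _ _) hn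
  have hn2 : ⌈8 * (2 * (r : ℝ) + M) / ε⌉₊ + 1 ≤ n := le_trans (le_max_right _ _) hn
  have hnbig : 8 * (2 * (r : ℝ) + M) / ε ≤ n := by
    refine (Nat.le_ceil _).trans ?_
    exact_mod_cast (by omega : ⌈8 * (2 * (r : ℝ) + M) / ε⌉₊ ≤ n)
  have hC0 := C_nonneg hk
  have hC1 := C_le_one hk
  -- one window
  have hwin : ∀ w : Fin (n / M), ((F.comap (emb (M := M) w)).edgeSet.ncard : ℝ) ≤
      (l : ℝ) ^ 2 * (C k * (m * (((a + 1 : ℕ) : ℝ) + 1)) + 1) + m * (l : ℝ) ^ 2 / 2 := by
    intro w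
    let Q : SimpleGraph (Fin m × Fin l) := (F.comap (emb (M := M) w)).comap finProdFinEquiv
    have hQadj : ∀ p q, Q.Adj p q ↔
        F.Adj (emb (M := M) w (finProdFinEquiv p)) (emb (M := M) w (finProdFinEquiv q)) :=
      fun p q => Iff.rfl
    have hQ : ¬ H.IsContained Q := by
      intro hcont
      apply hcon
      refine hcont.trans ?_
      have hinj : Function.Injective
          (fun p : Fin m × Fin l => emb (M := M) w (finProdFinEquiv p)) :=
        fun p q h => finProdFinEquiv.injective (emb_inj h).2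
      exact ⟨⟨⟨fun p : Fin m × Fin l => emb (M := M) w (finProdFinEquiv p), fun {a b} h => h⟩,
        hinj⟩⟩
    have hcard : Fintype.card (Fin m × Fin l) = M := by
      rw [Fintype.card_prod, Fintype.card_fin, Fintype.card_fin]
    have hct : (ct Q k : ℝ) ≤ κ * ((m : ℝ) * l) ^ k := by
      by_contra hcon'
      push Not at hcon'
      apply hQ
      apply hM0 (Fin m × Fin l) Q
      · rw [hcard, hM]
        calc M0 ≤ 1 * l := by omega
          _ ≤ m * l := Nat.mul_le_mul_right _ hm1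
      · rw [hcard, hM]
        push_cast
        exact hcon'.le
    have hP : ∀ (σ : Fin m → Fin l) (T : SimpleGraph (Fin m)), T ≤ smp Q σ → T.CliqueFree k →
        (T.edgeSet.ncard : ℝ) ≤ C k * (m * (((a + 1 : ℕ) : ℝ) + 1)) := by
      intro σ T hT hfree
      apply le_C hm1
      refine ⟨hfree, ?_⟩
      intro i j hij
      have h1 := hF (hT hij)
      obtain ⟨_, d, hd, h2⟩ := h1
      have ex : ((emb (M := M) w (finProdFinEquiv (i, σ i)) : Fin n) : ℕ) =
          w.val * M + ((σ i : ℕ) + l * i) := rfl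
      have ey : ((emb (M := M) w (finProdFinEquiv (j, σ j)) : Fin n) : ℕ) =
          w.val * M + ((σ j : ℕ) + l * j) := rfl
      have hx : ((finProdFinEquiv (i, σ i) : Fin (m * l)) : ℕ) = (σ i : ℕ) + l * i := rfl
      have hy : ((finProdFinEquiv (j, σ j) : Fin (m * l)) : ℕ) = (σ j : ℕ) + l * j := rfl
      have hxM : (σ i : ℕ) + l * i < M := by rw [← hx]; exact Fin.is_lt _
      have hyM : (σ j : ℕ) + l * j < M := by rw [← hy]; exact Fin.is_lt _
      have hxn : w.val * M + ((σ i : ℕ) + l * i) < n := by rw [← ex]; exact Fin.is_lt _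
      have hyn : w.val * M + ((σ j : ℕ) + l * j) < n := by rw [← ey]; exact Fin.is_lt _
      simp only at h2
      rw [ex, ey] at h2
      have hyx : (σ j : ℕ) + l * j ≤ (σ i : ℕ) + l * i + r := by
        rcases h2 with h2 | h2
        · by_cases hlt : w.val * M + ((σ i : ℕ) + l * i) + d < n
          · rw [Nat.mod_eq_of_lt hlt] at h2
            omega
          · rw [Nat.mod_eq_sub_mod (by omega), Nat.mod_eq_of_lt (by omega)] at h2
            omega
        · by_cases hlt : w.val * M + ((σ j : ℕ) + l * j) + d < n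
          · rw [Nat.mod_eq_of_lt hlt] at h2
            omega
          · rw [Nat.mod_eq_sub_mod (by omega), Nat.mod_eq_of_lt (by omega)] at h2
            omega
      by_contra hcon2
      have h3 : (i : ℕ) + (a + 2) ≤ j := by omega
      have h4 := Nat.mul_le_mul_left l h3
      have h5 : l * ((i : ℕ) + (a + 2)) = l * i + a * l + 2 * l := by ring
      have h6 := (σ i).2
      omega
    have h1 := sample hk hl0 Q _ κ hP hct
    rw [hκm] at h1
    have h2 : ((F.comap (emb (M := M) w)).edgeSet.ncard : ℝ) ≤ Q.edgeSet.ncard := by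
      exact_mod_cast edges_comap_le finProdFinEquiv (F.comap (emb (M := M) w))
    exact h2.trans h1
  have hcov := cover (M := M) hMpos hF
  have hcov' : (F.edgeSet.ncard : ℝ) ≤ (r : ℝ) * (r * (((n / M : ℕ) : ℝ) + 1) + r + M) +
      ∑ w : Fin (n / M), ((F.comap (emb (M := M) w)).edgeSet.ncard : ℝ) := by
    exact_mod_cast hcov
  have hsum : ∑ w : Fin (n / M), ((F.comap (emb (M := M) w)).edgeSet.ncard : ℝ) ≤
      ((n / M : ℕ) : ℝ) * ((l : ℝ) ^ 2 * (C k * (m * (((a + 1 : ℕ) : ℝ) + 1)) + 1) +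
        m * (l : ℝ) ^ 2 / 2) := by
    calc _ ≤ ∑ w : Fin (n / M), ((l : ℝ) ^ 2 * (C k * (m * (((a + 1 : ℕ) : ℝ) + 1)) + 1) +
          m * (l : ℝ) ^ 2 / 2) := Finset.sum_le_sum (fun w _ => hwin w)
      _ = _ := by rw [Finset.sum_const, Finset.card_univ, Fintype.card_fin, nsmul_eq_mul]
  -- numbers
  have hq : ((n / M : ℕ) : ℝ) * M ≤ n := by
    have h1 : n / M * M ≤ n := Nat.div_mul_le_self n M
    exact_mod_cast h1
  set q : ℝ := ((n / M : ℕ) : ℝ) with hqdef
  have hq0 : 0 ≤ q := by positivity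
  have hmR : (m : ℝ) = a * a := by rw [hm]; push_cast; ring
  have hMR : (M : ℝ) = a * a * l := by rw [hM]; push_cast; rw [hmR]
  have haR : (1 : ℝ) ≤ a := by exact_mod_cast ha1
  have hlR : (0 : ℝ) < l := by exact_mod_cast hl0
  have hlaR : (a : ℝ) * l ≤ r := by exact_mod_cast hla
  have hrR : (r : ℝ) ≤ 2 * (a * l) := by
    have h1 : r ≤ 2 * (a * l) := by
      have h2 : 1 * l ≤ a * l := Nat.mul_le_mul_right _ ha1
      omega
    exact_mod_cast h1
  have hr0 : (0 : ℝ) ≤ r := by positivity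
  have hn0 : (0 : ℝ) ≤ n := by positivity
  rw [hMR] at hq
  -- first term
  have t1 : q * ((l : ℝ) ^ 2 * (C k * (m * (((a + 1 : ℕ) : ℝ) + 1)) + 1) +
        m * (l : ℝ) ^ 2 / 2) ≤ (C k + ε / 4) * (r * n) := by
    have e1 : (l : ℝ) ^ 2 * (C k * (m * (((a + 1 : ℕ) : ℝ) + 1)) + 1) + m * (l : ℝ) ^ 2 / 2 ≤
        (a * a * l) * (l * (C k * a + 4)) := by
      rw [hmR]
      push_cast
      have h1 : (1 : ℝ) ≤ a * a := by nlinarith
      have h2 : (0 : ℝ) < (l : ℝ) ^ 2 := by positivity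
      have h3 : C k * (a * a * ((a : ℝ) + 1 + 1)) + 1 + a * a / 2 ≤ a * a * (C k * a + 4) := by
        nlinarith
      calc (l : ℝ) ^ 2 * (C k * (a * a * ((a : ℝ) + 1 + 1)) + 1) + a * a * (l : ℝ) ^ 2 / 2
          = (l : ℝ) ^ 2 * (C k * (a * a * ((a : ℝ) + 1 + 1)) + 1 + a * a / 2) := by ring
        _ ≤ (l : ℝ) ^ 2 * (a * a * (C k * a + 4)) := mul_le_mul_of_nonneg_left h3 h2.le
        _ = _ := by ring
    have e2 : (l : ℝ) * (C k * a + 4) ≤ (C k + ε / 4) * r := by
      have h1 : C k * a + 4 ≤ (C k + ε / 4) * a := by nlinarith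
      calc (l : ℝ) * (C k * a + 4) ≤ l * ((C k + ε / 4) * a) :=
            mul_le_mul_of_nonneg_left h1 hlR.le
        _ = (C k + ε / 4) * (a * l) := by ring
        _ ≤ (C k + ε / 4) * r := mul_le_mul_of_nonneg_left hlaR (by positivity)
    calc _ ≤ q * ((a * a * l) * (l * (C k * a + 4))) := mul_le_mul_of_nonneg_left e1 hq0
      _ = (q * (a * a * l)) * (l * (C k * a + 4)) := by ring
      _ ≤ n * (l * (C k * a + 4)) := mul_le_mul_of_nonneg_right hq (by positivity)
      _ ≤ n * ((C k + ε / 4) * r) := mul_le_mul_of_nonneg_left e2 hn0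
      _ = _ := by ring
  -- second term
  have t2 : (r : ℝ) * (r * q) ≤ ε / 8 * (r * n) := by
    have h1 : r * q ≤ ε / 8 * n := by
      calc r * q ≤ 2 * (a * l) * q := mul_le_mul_of_nonneg_right hrR hq0
        _ = 16 / 8 * (a * l * q) := by ring
        _ ≤ ε * a / 8 * (a * l * q) := by
            apply mul_le_mul_of_nonneg_right _ (by positivity)
            linarith
        _ = ε / 8 * (q * (a * a * l)) := by ring
        _ ≤ ε / 8 * n := mul_le_mul_of_nonneg_left hq (by positivity)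
    calc (r : ℝ) * (r * q) ≤ r * (ε / 8 * n) := mul_le_mul_of_nonneg_left h1 hr0
      _ = _ := by ring
  -- third term
  have t3 : (r : ℝ) * (2 * r + M) ≤ ε / 8 * (r * n) := by
    rw [div_le_iff₀ hε] at hnbig
    have h1 : 2 * (r : ℝ) + M ≤ ε / 8 * n := by linarith
    calc (r : ℝ) * (2 * r + M) ≤ r * (ε / 8 * n) := mul_le_mul_of_nonneg_left h1 hr0
      _ = _ := by ring
  have e3 : (r : ℝ) * (r * (q + 1) + r + M) = r * (r * q) + r * (2 * r + M) := by ring
  rw [e3] at hcov'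
  have e4 : (C k + ε) * ((r : ℝ) * n) = (C k + ε / 4) * (r * n) + ε / 8 * (r * n) +
      ε / 8 * (r * n) + ε / 2 * (r * n) := by ring
  have e5 : 0 ≤ ε / 2 * ((r : ℝ) * n) := by positivity
  linarith

end Pool.Agent.Y359.CP
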