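import Pool.Agent.Y359.CP.C

/-!
The lower bound: blow-ups.
-/

set_option autoImplicit false
set_option linter.unusedSectionVars false

namespace Pool.Agent.Y359.CP

open Pool.Agent.Results.MP_f19a21_co.CyclePowers

/-- the repeated blow-up -/
def blow {m : ℕ} (hm : 0 < m) (T0 : SimpleGraph (Fin m)) (n t q : ℕ) : SimpleGraph (Fin n) where
  Adj u v := u.val < q * (m * t) ∧ v.val < q * (m * t) ∧ u.val / (m * t) = v.val / (m * t) ∧
    T0.Adj ⟨u.val / t % m, Nat.mod_lt _ hm⟩ ⟨v.val / t % m, Nat.mod_lt _ hm⟩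
  symm := ⟨fun _ _ h => ⟨h.2.1, h.1, h.2.2.1.symm, h.2.2.2.symm⟩⟩
  loopless := ⟨fun _ h => T0.loopless.irrefl _ h.2.2.2⟩

lemma blow_free {k m : ℕ} (hm : 0 < m) {T0 : SimpleGraph (Fin m)} (h : T0.CliqueFree k)
    (n t q : ℕ) : (blow hm T0 n t q).CliqueFree k := by
  rw [cliqueFree_iff_Kt] at h ⊢
  intro φ hφ
  exact h (fun i => ⟨(φ i).val / t % m, Nat.mod_lt _ hm⟩) (fun i j hij => (hφ i j hij).2.2.2)

lemma pos_form {m t : ℕ} (hm : 0 < m) (ht : 0 < t) (u : ℕ) :
    u = (u / (m * t)) * (m * t) + (u / t % m) * t + u % t := by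
  have h1 := Nat.div_add_mod u t
  have h2 := Nat.div_add_mod (u / t) m
  have h3 : u / t / m = u / (m * t) := by rw [Nat.div_div_eq_div_mul, mul_comm]
  rw [h3] at h2
  have h4 : (u / (m * t)) * (m * t) + (u / t % m) * t = (m * (u / (m * t)) + u / t % m) * t := by
    ring
  rw [h4, h2, mul_comm (u / t) t]
  omega

lemma blow_le {k m s : ℕ} (hm : 0 < m) {T0 : SimpleGraph (Fin m)} (h : Loc k m s T0)
    {n t q r : ℕ} (ht : 0 < t) (htr : (s + 1) * t ≤ r) (hn : q * (m * t) ≤ n) :
    blow hm T0 n t q ≤ cyclePower n r := by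
  have key : ∀ u v : Fin n, (blow hm T0 n t q).Adj u v → u.val ≤ v.val → ∃ d : ℕ, d ≤ r ∧
      (u.val + d) % n = v.val := by
    intro u v huv hle
    obtain ⟨h1, h2, h3, h4⟩ := huv
    have h5 := h.len _ _ h4
    simp only at h5
    have eu := pos_form hm ht u.val
    have ev := pos_form hm ht v.val
    have mu := Nat.mod_lt u.val ht
    have mv := Nat.mod_lt v.val ht
    refine ⟨v.val - u.val, ?_, ?_⟩
    · have h6 := Nat.mul_le_mul_right t h5
      rw [← h3] at ev
      have h7 : (u.val / t % m + s) * t = (u.val / t % m) * t + s * t := by ring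
      have h8 : (s + 1) * t = s * t + t := by ring
      omega
    · rw [Nat.add_sub_cancel' hle, Nat.mod_eq_of_lt v.2]
  intro u v huv
  refine ⟨huv.ne, ?_⟩
  rcases le_total u.val v.val with hle | hle
  · obtain ⟨d, hd, h1⟩ := key u v huv hle
    exact ⟨d, hd, Or.inl h1⟩
  · obtain ⟨d, hd, h1⟩ := key v u huv.symm hle
    exact ⟨d, hd, Or.inr h1⟩

lemma blow_edges {m : ℕ} (hm : 0 < m) {T0 : SimpleGraph (Fin m)}
    {n t q : ℕ} (ht : 0 < t) (hn : q * (m * t) ≤ n) :
    q * (t ^ 2 * T0.edgeSet.ncard) ≤ (blow hm T0 n t q).edgeSet.ncard := by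
  classical
  have h0 : q * (t ^ 2 * ct T0 2) ≤ ct (blow hm T0 n t q) 2 := by
    have e1 : q * (t ^ 2 * ct T0 2) = (Finset.univ.filter
        (fun p : Fin q × (Fin 2 → Fin t) × (Fin 2 → Fin m) => Kt T0 2 p.2.2)).card := by
      have e2 : (Finset.univ.filter
          (fun p : Fin q × (Fin 2 → Fin t) × (Fin 2 → Fin m) => Kt T0 2 p.2.2)) =
          (Finset.univ : Finset (Fin q)) ×ˢ ((Finset.univ : Finset (Fin 2 → Fin t)) ×ˢ
            (Finset.univ.filter (fun φ : Fin 2 → Fin m => Kt T0 2 φ))) := by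
        ext p
        simp
      rw [e2, Finset.card_product, Finset.card_product, Finset.card_univ, Finset.card_univ,
        Fintype.card_fin, Fintype.card_fun, Fintype.card_fin, Fintype.card_fin]
      unfold ct
      congr
    rw [e1]
    unfold ct
    have hlt : ∀ (j : Fin q) (i : Fin m) (b : Fin t), j.val * (m * t) + i.val * t + b.val <
        q * (m * t) := by
      intro j i b
      have h1 : (j.val + 1) * (m * t) ≤ q * (m * t) := Nat.mul_le_mul_right _ j.2
      have h2 : (i.val + 1) * t ≤ m * t := Nat.mul_le_mul_right _ i.2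
      have h3 := b.2
      rw [Nat.add_mul] at h1 h2
      omega
    have hdt : ∀ (j : Fin q) (i : Fin m) (b : Fin t),
        (j.val * (m * t) + i.val * t + b.val) / t = j.val * m + i.val := by
      intro j i b
      have h1 : j.val * (m * t) + i.val * t + b.val = b.val + t * (j.val * m + i.val) := by ring
      rw [h1, Nat.add_mul_div_left _ _ ht, Nat.div_eq_of_lt b.2, zero_add]
    have hmt : ∀ (j : Fin q) (i : Fin m) (b : Fin t),
        (j.val * (m * t) + i.val * t + b.val) % t = b.val := by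
      intro j i b
      have h1 : j.val * (m * t) + i.val * t + b.val = b.val + t * (j.val * m + i.val) := by ring
      rw [h1, Nat.add_mul_mod_self_left, Nat.mod_eq_of_lt b.2]
    have hdm : ∀ (j : Fin q) (i : Fin m), (j.val * m + i.val) % m = i.val := by
      intro j i
      have h1 : j.val * m + i.val = i.val + m * j.val := by ring
      rw [h1, Nat.add_mul_mod_self_left, Nat.mod_eq_of_lt i.2]
    have hdd : ∀ (j : Fin q) (i : Fin m), (j.val * m + i.val) / m = j.val := by
      intro j i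
      have h1 : j.val * m + i.val = i.val + m * j.val := by ring
      rw [h1, Nat.add_mul_div_left _ _ hm, Nat.div_eq_of_lt i.2, zero_add]
    have hdmt : ∀ (j : Fin q) (i : Fin m) (b : Fin t),
        (j.val * (m * t) + i.val * t + b.val) / (m * t) = j.val := by
      intro j i b
      have h1 : m * t = t * m := mul_comm _ _
      rw [h1, ← Nat.div_div_eq_div_mul, ← h1, hdt, hdd]
    apply Finset.card_le_card_of_injOn (fun p : Fin q × (Fin 2 → Fin t) × (Fin 2 → Fin m) =>
      fun x : Fin 2 => (⟨p.1.val * (m * t) + (p.2.2 x).val * t + (p.2.1 x).val,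
        (hlt p.1 (p.2.2 x) (p.2.1 x)).trans_le hn⟩ : Fin n))
    · intro p hp
      rw [Finset.mem_coe, Finset.mem_filter] at hp ⊢
      refine ⟨Finset.mem_univ _, ?_⟩
      intro x y hxy
      refine ⟨hlt _ _ _, hlt _ _ _, ?_, ?_⟩
      · simp only [hdmt]
      · have h1 := hp.2 x y hxy
        have e3 : ∀ x : Fin 2, (⟨(p.1.val * (m * t) + (p.2.2 x).val * t + (p.2.1 x).val) / t % m,
            Nat.mod_lt _ hm⟩ : Fin m) = p.2.2 x := by
          intro x
          apply Fin.ext
          simp only [hdt, hdm]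
        simp only [e3]
        exact h1
    · intro p _ p' _ h
      have h1 : ∀ x : Fin 2, p.1.val * (m * t) + (p.2.2 x).val * t + (p.2.1 x).val =
          p'.1.val * (m * t) + (p'.2.2 x).val * t + (p'.2.1 x).val :=
        fun x => congrArg Fin.val (congrFun h x)
      apply Prod.ext
      · apply Fin.ext
        have h2 := congrArg (fun z => z / (m * t)) (h1 0)
        simpa only [hdmt] using h2
      · apply Prod.ext
        · funext x
          apply Fin.ext
          have h2 := congrArg (fun z => z % t) (h1 x)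
          simpa only [hmt] using h2
        · funext x
          apply Fin.ext
          have h2 := congrArg (fun z => z / t % m) (h1 x)
          simpa only [hdt, hdm] using h2
  rw [ct_two, ct_two] at h0
  have h1 : q * (t ^ 2 * (2 * T0.edgeSet.ncard)) = 2 * (q * (t ^ 2 * T0.edgeSet.ncard)) := by ring
  omega

/-- the lower bound -/
theorem lower {k : ℕ} (hk : 2 ≤ k) (ε : ℝ) (hε : 0 < ε) :
    ∃ r0 : ℕ, ∀ r : ℕ, r0 ≤ r → ∃ n0 : ℕ, ∀ n : ℕ, n0 ≤ n → ∃ T : SimpleGraph (Fin n),
      T ≤ cyclePower n r ∧ T.CliqueFree k ∧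
        (C k - ε) * ((r : ℝ) * n) ≤ (T.edgeSet.ncard : ℝ) := by
  classical
  obtain ⟨x, ⟨m, s, T0, hm, h, rfl⟩, hx⟩ := exists_lt_of_lt_csSup
    (s := {x : ℝ | ∃ (m s : ℕ) (T : SimpleGraph (Fin m)), 1 ≤ m ∧ Loc k m s T ∧
      x = (T.edgeSet.ncard : ℝ) / (m * (s + 1))})
    ⟨_, 1, 0, ⊥, le_rfl, bot_loc hk, rfl⟩ (show C k - ε / 2 < _ by
      show C k - ε / 2 < C k
      linarith)
  set e0 : ℝ := (T0.edgeSet.ncard : ℝ) with he0
  have hm0 : (1 : ℝ) ≤ m := by exact_mod_cast hm
  have hs0 : (0 : ℝ) ≤ s := by positivity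
  have he00 : 0 ≤ e0 := by positivity
  have he1 : e0 ≤ s * m := by
    rw [he0]; exact_mod_cast loc_le h
  rw [lt_div_iff₀ (by positivity)] at hx
  refine ⟨(s + 1) * (⌈4 * (s : ℝ) / ε⌉₊ + 1), fun r hr => ?_⟩
  have hr1 : 1 ≤ r := by
    refine le_trans ?_ hr
    exact Nat.mul_pos (by omega) (by omega)
  set t : ℕ := r / (s + 1) with ht
  have htr : (s + 1) * t ≤ r := Nat.mul_div_le r (s + 1)
  have htr2 : r < (s + 1) * t + (s + 1) := by
    have h1 := Nat.div_add_mod r (s + 1)
    have h2 := Nat.mod_lt r (show s + 1 > 0 by omega)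
    rw [← ht] at h1
    omega
  have ht1 : ⌈4 * (s : ℝ) / ε⌉₊ + 1 ≤ t := by
    rw [ht, Nat.le_div_iff_mul_le (by omega), mul_comm]; exact hr
  have ht0 : 0 < t := by omega
  have hr4 : 4 * (s : ℝ) ≤ ε * r := by
    have h1 : 4 * (s : ℝ) / ε ≤ t := by
      refine (Nat.le_ceil _).trans ?_
      exact_mod_cast (by omega : ⌈4 * (s : ℝ) / ε⌉₊ ≤ t)
    rw [div_le_iff₀ hε] at h1
    have h2 : (t : ℝ) ≤ r := by
      have h3 : t ≤ r := by rw [ht]; exact Nat.div_le_self _ _
      exact_mod_cast h3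
    nlinarith
  refine ⟨⌈4 * (r : ℝ) * (s * m) / ε⌉₊ + 1, fun n hn => ?_⟩
  have hn1 : 4 * (r : ℝ) * (s * m) ≤ ε * n := by
    have h1 : 4 * (r : ℝ) * (s * m) / ε ≤ n := by
      refine (Nat.le_ceil _).trans ?_
      exact_mod_cast (by omega : ⌈4 * (r : ℝ) * (s * m) / ε⌉₊ ≤ n)
    rw [div_le_iff₀ hε] at h1
    linarith
  set q : ℕ := n / (m * t) with hq
  have hmt : 0 < m * t := Nat.mul_pos hm ht0
  have hqn : q * (m * t) ≤ n := Nat.div_mul_le_self _ _
  have hqn2 : n < (m * t) * q + m * t := by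
    have h1 := Nat.div_add_mod n (m * t)
    have h2 := Nat.mod_lt n hmt
    rw [← hq] at h1
    omega
  refine ⟨blow hm T0 n t q, blow_le hm h ht0 htr hqn, blow_free hm h.free n t q, ?_⟩
  have h1 : ((q * (t ^ 2 * T0.edgeSet.ncard) : ℕ) : ℝ) ≤
      ((blow hm T0 n t q).edgeSet.ncard : ℝ) := by exact_mod_cast blow_edges hm ht0 hqn
  refine le_trans ?_ h1
  push_cast
  rw [← he0]
  have hqR : (n : ℝ) ≤ (m * t) * q + m * t := by exact_mod_cast hqn2.le
  have htR : (r : ℝ) ≤ (s + 1) * t + (s + 1) := by exact_mod_cast htr2.le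
  have htr' : ((s : ℝ) + 1) * t ≤ r := by exact_mod_cast htr
  have ht0' : (0 : ℝ) < t := by exact_mod_cast ht0
  have htle : (t : ℝ) ≤ r := by nlinarith
  have hr0 : (0 : ℝ) ≤ r := by positivity
  have hn0 : (0 : ℝ) ≤ n := by positivity
  have hq0 : (0 : ℝ) ≤ (q : ℝ) := by positivity
  -- multiply by m (s+1)
  have hpos : (0 : ℝ) < m * (s + 1) := by positivity
  have key : (C k - ε) * (r * n) * (m * (s + 1)) ≤ (q * ((t : ℝ) ^ 2 * e0)) * (m * (s + 1)) := by
    -- r n e0 ≤ q t^2 e0 m (s+1) + errors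
    have a1 : (r : ℝ) * n * e0 ≤ (q * ((t : ℝ) ^ 2 * e0)) * (m * (s + 1)) +
        (s + 1) * n * e0 + (s + 1) * (m * t * t) * e0 := by
      have b1 : (r : ℝ) * n ≤ ((s + 1) * t + (s + 1)) * n := mul_le_mul_of_nonneg_right htR hn0
      have b2 : ((s : ℝ) + 1) * t * n ≤ (s + 1) * t * ((m * t) * q + m * t) :=
        mul_le_mul_of_nonneg_left hqR (by positivity)
      have b3 : (r : ℝ) * n ≤ (s + 1) * t * ((m * t) * q + m * t) + (s + 1) * n := by linarith
      calc (r : ℝ) * n * e0 ≤ ((s + 1) * t * ((m * t) * q + m * t) + (s + 1) * n) * e0 :=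
            mul_le_mul_of_nonneg_right b3 he00
        _ = _ := by ring
    have a2 : ((s : ℝ) + 1) * n * e0 ≤ ε / 4 * (r * n) * (m * (s + 1)) := by
      calc ((s : ℝ) + 1) * n * e0 ≤ (s + 1) * n * (s * m) :=
            mul_le_mul_of_nonneg_left he1 (by positivity)
        _ = (4 * s) * (n * (m * (s + 1)) / 4) := by ring
        _ ≤ (ε * r) * (n * (m * (s + 1)) / 4) := mul_le_mul_of_nonneg_right hr4 (by positivity)
        _ = _ := by ring
    have a3 : ((s : ℝ) + 1) * (m * t * t) * e0 ≤ ε / 4 * (r * n) * (m * (s + 1)) := by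
      have b1 : (t : ℝ) * t ≤ r * r := mul_le_mul htle htle ht0'.le hr0
      calc ((s : ℝ) + 1) * (m * t * t) * e0 = (t * t) * (((s : ℝ) + 1) * m * e0) := by ring
        _ ≤ (r * r) * (((s : ℝ) + 1) * m * e0) := mul_le_mul_of_nonneg_right b1 (by positivity)
        _ ≤ (r * r) * (((s : ℝ) + 1) * m * (s * m)) :=
            mul_le_mul_of_nonneg_left (mul_le_mul_of_nonneg_left he1 (by positivity))
              (by positivity)
        _ = (4 * r * (s * m)) * (r * (m * (s + 1)) / 4) := by ring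
        _ ≤ (ε * n) * (r * (m * (s + 1)) / 4) := mul_le_mul_of_nonneg_right hn1 (by positivity)
        _ = _ := by ring
    have a4 : (C k - ε / 2) * (m * (s + 1)) * (r * n) ≤ e0 * (r * n) :=
      mul_le_mul_of_nonneg_right hx.le (by positivity)
    have a5 : (C k - ε) * (r * n) * (m * (s + 1)) = (C k - ε / 2) * (m * (s + 1)) * (r * n) -
        ε / 4 * (r * n) * (m * (s + 1)) - ε / 4 * (r * n) * (m * (s + 1)) := by ring
    have a6 : (r : ℝ) * n * e0 = e0 * (r * n) := by ring
    linarith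
  exact le_of_mul_le_mul_right key hpos

end Pool.Agent.Y359.CP
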